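import Pool.Agent.Run7.h225.HG.Iface5
import Pool.Agent.Run7.h225.HG.SYS2
import Pool.Agent.Run7.h225.HG.SLG

/-!
# Piece TGJ of the project HYG: the joint torsors at complex points
-/

set_option autoImplicit false

open PowerSeries Matrix
open Pool.Agent.Y113 hiding Bm
open Pool.Agent.Y119.HZ
open Pool.Agent.Y119.HY (Am Jm Bm cm E Hf Hc Yf Gal Sol QD Ac_nil E_isom E_mul_neg map_mul_eval map_C_eval)
open Run7.h893.HO
open Pool.Agent.Run7.h225.HG

namespace Pool.Agent.Run7.h811.HG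

/-! ### one family -/

section one

variable {n : ℕ} {Q : Polynomial ℚ}

/-- the group of one family -/
def GJ (n : ℕ) (Q : Polynomial ℚ) (g : Matrix (Fin n) (Fin n) ℂ) : Prop :=
  g.det = 1 ∧ (QD n Q → g.transpose * cm (Jm n Q) * g = cm (Jm n Q))

lemma GJ_mul {g h : Matrix (Fin n) (Fin n) ℂ} (hg : GJ n Q g) (hh : GJ n Q h) : GJ n Q (g * h) :=
  ⟨by rw [Matrix.det_mul, hg.1, hh.1, one_mul], fun hQ => isom_mul (hg.2 hQ) (hh.2 hQ)⟩

/-- the determinant of the holomorphic part, at complex points -/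
lemma det_Hf (hQ : QG n Q) {z : ℂ} (hz : ‖z‖ < 1) :
    (Hf (Hc n Q) z).det = Complex.exp (-((Q.coeff (n - 1) : ℚ) : ℂ) * Complex.log (1 - z)) := by
  have hre : ∀ w ∈ Metric.ball (0 : ℂ) 1, 1 - w ∈ Complex.slitPlane := by
    intro w hw
    rw [Metric.mem_ball, dist_zero_right] at hw
    left
    rw [Complex.sub_re, Complex.one_re]
    have := (Complex.abs_re_le_norm w).trans_lt hw
    have := (abs_lt.1 this).2
    linarith
  have h1 := Pool.Agent.Y119.HA.zero_of_real (f := fun z => (Hf (Hc n Q) z).det -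
    Complex.exp (-((Q.coeff (n - 1) : ℚ) : ℂ) * Complex.log (1 - z))) ?_ ?_ hz
  · exact sub_eq_zero.1 h1
  · intro w hw
    refine AnalyticAt.sub ?_ ?_
    · simp only [Matrix.det_apply]
      refine Finset.analyticAt_fun_sum _ fun σ _ => ?_
      refine AnalyticAt.const_smul ?_
      refine Finset.analyticAt_fun_prod _ fun i _ => ?_
      exact Pool.Agent.Y119.HY.Hf_an (sol_c_g hQ) Ac_nil _ _ w hw
    · refine AnalyticAt.cexp (analyticAt_const.mul ?_)
      exact AnalyticAt.clog (analyticAt_const.sub analyticAt_id) (hre w hw)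
  · intro x hx hx1
    have h2 := (YJ_mem hQ hx hx1).1
    unfold Yf at h2
    rw [Matrix.det_mul, det_E _ hQ, mul_one] at h2
    show _ - _ = (0 : ℂ)
    rw [h2, sub_self]

lemma Hf_mem (hQ : QG n Q) {z : ℂ} (hz : ‖z‖ < 1) : Hf (Hc n Q) z ∈ TJ n Q (Complex.log (1 - z)) :=
  ⟨det_Hf hQ hz, fun hQD => Pool.Agent.Y119.HA.form_c hQD hz⟩

lemma E_GJ (hQ : QG n Q) (c : ℂ) : GJ n Q (E (cm (Am n)) c) :=
  ⟨det_E c hQ, fun _ => E_isom Ac_nil Pool.Agent.Y119.HY.Jc_rel c⟩

lemma TJ_mul {l : ℂ} {X g : Matrix (Fin n) (Fin n) ℂ} (hX : X ∈ TJ n Q l) (hg : GJ n Q g) : X * g ∈ TJ n Q l :=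
  ⟨by rw [Matrix.det_mul, hX.1, hg.1, mul_one], fun hQD => isom_mul (hX.2 hQD) (hg.2 hQD)⟩

/-- two elements of the torsor differ by an element of the group -/
lemma TJ_div {l : ℂ} {X Y : Matrix (Fin n) (Fin n) ℂ} (hX : X ∈ TJ n Q l) (hY : Y ∈ TJ n Q l) :
    ∃ g, GJ n Q g ∧ X * g = Y := by
  have hu : IsUnit X.det := by
    rw [hX.1]
    exact Ne.isUnit (Complex.exp_ne_zero _)
  refine ⟨X⁻¹ * Y, ⟨?_, fun hQD => ?_⟩, ?_⟩
  · rw [Matrix.det_mul, Matrix.det_nonsing_inv, Ring.inverse_eq_inv', hX.1, hY.1,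
      inv_mul_cancel₀ (Complex.exp_ne_zero _)]
  · refine isom_mul ?_ (hY.2 hQD)
    have h1 := hX.2 hQD
    calc (X⁻¹).transpose * cm (Jm n Q) * X⁻¹ =
          (X⁻¹).transpose * (X.transpose * cm (Jm n Q) * X) * X⁻¹ := by rw [h1]
      _ = (X * X⁻¹).transpose * cm (Jm n Q) * (X * X⁻¹) := by
        rw [Matrix.transpose_mul]
        simp only [Matrix.mul_assoc]
      _ = _ := by rw [Matrix.mul_nonsing_inv _ hu, Matrix.transpose_one, one_mul, mul_one]
  · rw [← Matrix.mul_assoc, Matrix.mul_nonsing_inv _ hu, one_mul]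

/-- elements connected with `1` -/
def Pq (n : ℕ) (Q : Polynomial ℚ) (g : Matrix (Fin n) (Fin n) ℂ) : Prop :=
  ∃ M : Matrix (Fin n) (Fin n) (Polynomial ℂ), M.map (Polynomial.eval 0) = 1 ∧ M.map (Polynomial.eval 1) = g ∧
    ∀ c, GJ n Q (M.map (Polynomial.eval c))

/-- the special linear group is connected -/
lemma sl_conn (g : Matrix (Fin n) (Fin n) ℂ) (hg : g.det = 1) :
    ∃ M : Matrix (Fin n) (Fin n) (Polynomial ℂ), M.map (Polynomial.eval 0) = 1 ∧ M.map (Polynomial.eval 1) = g ∧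
      ∀ c, (M.map (Polynomial.eval c)).det = 1 := by
  set S : Submonoid (Matrix (Fin n) (Fin n) ℂ) :=
    { carrier := {g | ∃ M : Matrix (Fin n) (Fin n) (Polynomial ℂ), M.map (Polynomial.eval 0) = 1 ∧
        M.map (Polynomial.eval 1) = g ∧ ∀ c, (M.map (Polynomial.eval c)).det = 1}
      mul_mem' := by
        rintro a b ⟨M, h1, h2, h3⟩ ⟨N, k1, k2, k3⟩
        refine ⟨M * N, ?_, ?_, fun c => ?_⟩
        · rw [map_mul_eval, h1, k1, one_mul]
        · rw [map_mul_eval, h2, k2]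
        · rw [map_mul_eval, Matrix.det_mul, h3, k3, one_mul]
      one_mem' := ⟨1, Pool.Agent.Y118.CM.map_one' 0, Pool.Agent.Y118.CM.map_one' 1, fun c => by
        rw [Pool.Agent.Y118.CM.map_one', Matrix.det_one]⟩ } with hS
  have h1 : ∀ w ξ : Fin n → ℂ, ξ ⬝ᵥ w = 0 → 1 + vecMulVec w ξ ∈ S := by
    intro w ξ hw
    have hMe : ∀ c : ℂ, (1 + (Polynomial.X : Polynomial ℂ) • vecMulVec (fun l => Polynomial.C (w l))
        (fun l => Polynomial.C (ξ l)) : Matrix (Fin n) (Fin n) (Polynomial ℂ)).map (Polynomial.eval c) =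
        1 + vecMulVec (c • w) ξ := by
      intro c
      ext l k
      simp only [Matrix.map_apply, Matrix.add_apply, Matrix.smul_apply, smul_eq_mul, vecMulVec_apply,
        Polynomial.eval_add, Polynomial.eval_mul, Polynomial.eval_X, Polynomial.eval_C, Pi.smul_apply]
      congr 1
      · rw [Matrix.one_apply, Matrix.one_apply]
        split_ifs <;> simp
      · ring
    refine ⟨1 + (Polynomial.X : Polynomial ℂ) • vecMulVec (fun l => Polynomial.C (w l)) (fun l => Polynomial.C (ξ l)),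
      ?_, ?_, fun c => ?_⟩
    · rw [hMe, zero_smul, zero_vecMulVec, add_zero]
    · rw [hMe, one_smul]
    · rw [hMe, Matrix.vecMulVec_eq Unit, Matrix.det_one_add_replicateCol_mul_replicateRow, dotProduct_smul, hw,
        smul_zero, add_zero]
  exact p_SLG n S h1 g hg

/-- the group of one family is connected -/
theorem Pq_all {g : Matrix (Fin n) (Fin n) ℂ} (hg : GJ n Q g) : Pq n Q g := by
  by_cases hQ : QD n Q
  · obtain ⟨M, h1, h2, h3⟩ := Pool.Agent.Y118.CM.Pc_all (Pool.Agent.Y119.HY.Jc_skew hQ) (Pool.Agent.Y119.HY.Jc_det hQ) g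
      (hg.2 hQ)
    refine ⟨M, h1, h2, fun c => ⟨?_, fun _ => h3 c⟩⟩
    have he : ∀ c : ℂ, (M.map (Polynomial.eval c)).det = Polynomial.eval c M.det := by
      intro c
      have := RingHom.map_det (Polynomial.evalRingHom c) M
      rw [Polynomial.coe_evalRingHom] at this
      exact this.symm
    have hsq : M.det * M.det = 1 := by
      refine Polynomial.funext fun c => ?_
      rw [Polynomial.eval_mul, ← he, Polynomial.eval_one]
      have h4 := congrArg Matrix.det (h3 c)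
      rw [Matrix.det_mul, Matrix.det_mul, Matrix.det_transpose] at h4
      have h5 := Pool.Agent.Y119.HY.Jc_det hQ
      have h6 : ((M.map (Polynomial.eval c)).det * (M.map (Polynomial.eval c)).det - 1) * (cm (Jm n Q)).det = 0 := by
        linear_combination h4
      exact sub_eq_zero.1 ((mul_eq_zero.1 h6).resolve_right h5)
    have hun : IsUnit M.det := IsUnit.of_mul_eq_one _ hsq
    obtain ⟨a, -, ha⟩ := Polynomial.isUnit_iff.1 hun
    have h0 := he 0
    rw [h1, Matrix.det_one, ← ha, Polynomial.eval_C] at h0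
    rw [he, ← ha, Polynomial.eval_C, ← h0]
  · obtain ⟨M, h1, h2, h3⟩ := sl_conn g hg.1
    exact ⟨M, h1, h2, fun c => ⟨h3 c, fun h => absurd h hQ⟩⟩

end one

/-! ### several families -/

section joint

variable {r : ℕ} {n : Fin r → ℕ} {Q : Fin r → Polynomial ℚ} {W : ∀ j, Matrix (Fin (n j)) (Fin (n j)) ℚ⟦X⟧}

lemma Hf_joint (z : ℂ) : Hf (Hcg (blk n ℚ⟦X⟧ fun j => Hp (n j) (Q j))) z = blk n ℂ fun j => Hf (Hc (n j) (Q j)) z := by
  rw [BLK.Hcg_blk, BLK.Hf_blk]
  congr 1
  funext j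
  rw [Hcg_Hp]

lemma E_joint (c : ℂ) : E (cm (blk n ℚ fun j => Am (n j))) c = blk n ℂ fun j => E (cm (Am (n j))) c := by
  rw [BLK.cm_blk]
  exact BLK.E_blk (fun j => cm (Am (n j))) (fun j => Ac_nil) c

/-- irreducibility -/
theorem irr_joint (z : ℂ) : Pool.Agent.Y118.UL.Irr {y : Fin ((∑ j, n j) * (∑ j, n j)) → ℂ |
    ∃ X ∈ TJ0 n Q z, y = fun a => X (ix (∑ j, n j) a).1 (ix (∑ j, n j) a).2} := by
  intro P R h
  by_contra hcon
  push Not at hcon
  obtain ⟨⟨_, ⟨_, ⟨X, hX, rfl⟩, rfl⟩, h1⟩, ⟨_, ⟨_, ⟨Y, hY, rfl⟩, rfl⟩, h2⟩⟩ := hcon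
  choose g hg hgY using fun j => TJ_div (hX j) (hY j)
  choose M hM0 hM1 hM using fun j => Pq_all (hg j)
  set e := ix (∑ j, n j) with he
  set N : Matrix (Fin (∑ j, n j)) (Fin (∑ j, n j)) (Polynomial ℂ) :=
    blk n (Polynomial ℂ) fun j => (X j).map Polynomial.C * M j with hN
  have hNe : ∀ c, N.map (Polynomial.eval c) = blk n ℂ fun j => X j * (M j).map (Polynomial.eval c) := by
    intro c
    rw [hN, BLK.blk_map _ Polynomial.eval_zero]
    congr 1
    funext j
    rw [map_mul_eval, map_C_eval]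
  have hev : ∀ (R : MvPolynomial (Fin ((∑ j, n j) * (∑ j, n j))) ℂ) (c : ℂ),
      Polynomial.eval c (MvPolynomial.aeval (fun a => N (e a).1 (e a).2) R) =
      MvPolynomial.eval (fun a => (blk n ℂ fun j => X j * (M j).map (Polynomial.eval c)) (e a).1 (e a).2) R := by
    intro R c
    have h3 : (Polynomial.aeval c : Polynomial ℂ →ₐ[ℂ] ℂ).comp (MvPolynomial.aeval (fun a => N (e a).1 (e a).2)) =
        MvPolynomial.aeval (fun a => (blk n ℂ fun j => X j * (M j).map (Polynomial.eval c)) (e a).1 (e a).2) := by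
      refine MvPolynomial.algHom_ext fun a => ?_
      rw [AlgHom.comp_apply, MvPolynomial.aeval_X, MvPolynomial.aeval_X, ← hNe]
      rfl
    exact DFunLike.congr_fun h3 R
  set p := MvPolynomial.aeval (fun a => N (e a).1 (e a).2) P with hp
  set q := MvPolynomial.aeval (fun a => N (e a).1 (e a).2) R with hq
  have hp0 : p ≠ 0 := by
    intro h0
    apply h1
    have h3 := hev P 0
    rw [← hp, h0, Polynomial.eval_zero] at h3
    have h4 : (fun j => X j * (M j).map (Polynomial.eval 0)) = X := by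
      funext j
      rw [hM0, mul_one]
    rw [h4] at h3
    exact h3.symm
  have hq0 : q ≠ 0 := by
    intro h0
    apply h2
    have h3 := hev R 1
    rw [← hq, h0, Polynomial.eval_zero] at h3
    have h4 : (fun j => X j * (M j).map (Polynomial.eval 1)) = Y := by
      funext j
      rw [hM1, hgY]
    rw [h4] at h3
    exact h3.symm
  obtain ⟨s, hs⟩ := Infinite.exists_notMem_finset (p * q).roots.toFinset
  have h3 : (p * q).eval s ≠ 0 := by
    intro h3
    exact hs (Multiset.mem_toFinset.2 ((Polynomial.mem_roots (mul_ne_zero hp0 hq0)).2 h3))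
  rw [Polynomial.eval_mul, hev, hev] at h3
  exact h3 (h _ ⟨_, ⟨fun j => X j * (M j).map (Polynomial.eval s), fun j => TJ_mul (hX j) (hM j s), rfl⟩, rfl⟩)

/-- the relations hold on the torsor -/
theorem vc_joint (hJ : JT n Q W) (hG : GrpOK n Q) {z : ℂ} (hz : ‖z‖ < 1)
    {X : Matrix (Fin (∑ j, n j)) (Fin (∑ j, n j)) ℂ} (hX : X ∈ TJ0 n Q z) :
    (fun a => X (ix (∑ j, n j) a).1 (ix (∑ j, n j) a).2) ∈
      Pool.Agent.Y916.Af.Vc (hfg (blk n ℚ⟦X⟧ fun j => Hp (n j) (Q j))) z := by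
  obtain ⟨X, hX, rfl⟩ := hX
  have hS := (p_BLK r n (fun j => Am (n j)) (fun j => Bm (n j) (Q j)) (fun j => Hp (n j) (Q j)) W hJ.sys).1
  choose κ hκ hκX using fun j => TJ_div (Hf_mem (hJ.q j) hz) (hX j)
  intro R hR
  have h1 := Pool.Agent.Y119.HA.zero_of_real (f := fun w => MvPolynomial.eval₂ (evq w)
    (fun a => (Hf (Hcg (blk n ℚ⟦X⟧ fun j => Hp (n j) (Q j))) w * blk n ℂ κ) (ix (∑ j, n j) a).1 (ix (∑ j, n j) a).2) R)
    (Pool.Agent.Y119.HA.an_ev fun a => ?_) (fun x hx hx1 => ?_) hz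
  · have h2 : Hf (Hcg (blk n ℚ⟦X⟧ fun j => Hp (n j) (Q j))) z * blk n ℂ κ = blk n ℂ X := by
      rw [Hf_joint, ← map_mul]
      congr 1
      funext j
      exact hκX j
    simp only [h2] at h1
    exact h1
  · simp only [Matrix.mul_apply]
    intro w hw
    refine Finset.analyticAt_fun_sum _ fun c _ => ?_
    exact (Pool.Agent.Y119.HY.Hf_an (SYS2.sol hS) (SYS2.cm_nil hS) _ _ w hw).mul analyticAt_const
  · -- real points
    have hg : blk n ℂ (fun j => E (cm (Am (n j))) (-Complex.log (x : ℂ)) * κ j * E (cm (Am (n j))) (Complex.log (x : ℂ))) ∈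
        Gal (YJ n Q) := by
      have h2 : ∀ j, GJ (n j) (Q j) (E (cm (Am (n j))) (-Complex.log (x : ℂ)) * κ j *
          E (cm (Am (n j))) (Complex.log (x : ℂ))) := fun j =>
        GJ_mul (GJ_mul (E_GJ (hJ.q j) _) (hκ j)) (E_GJ (hJ.q j) _)
      exact hG _ (fun j => (h2 j).1) fun j => (h2 j).2
    refine SYS2.rel_inv_s hS hR hx hx1 hg ?_
    unfold Yf
    rw [E_joint, E_joint]
    simp only [Matrix.mul_assoc]
    congr 1
    simp only [← map_mul]
    congr 1
    funext j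
    simp only [Pi.mul_apply]
    have e1 := E_mul_neg (N := cm (Am (n j))) Ac_nil (Complex.log (x : ℂ))
    calc E (cm (Am (n j))) (Complex.log (x : ℂ)) * (E (cm (Am (n j))) (-Complex.log (x : ℂ)) * (κ j *
            E (cm (Am (n j))) (Complex.log (x : ℂ))) * E (cm (Am (n j))) (-Complex.log (x : ℂ))) =
          (E (cm (Am (n j))) (Complex.log (x : ℂ)) * E (cm (Am (n j))) (-Complex.log (x : ℂ))) * κ j *
            (E (cm (Am (n j))) (Complex.log (x : ℂ)) * E (cm (Am (n j))) (-Complex.log (x : ℂ))) := by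
          simp only [Matrix.mul_assoc]
      _ = κ j := by rw [e1, one_mul, mul_one]

end joint

/-- **TGJ.** -/
theorem p_TGJ : S_TGJ := by
  intro r n Q W hJ hG
  refine ⟨fun z hz => ?_, fun z hz X hX c => ?_, fun z hz => irr_joint z, fun z hz X hX => vc_joint hJ hG hz hX⟩
  · exact ⟨_, fun j => Hf_mem (hJ.q j) hz, Hf_joint z⟩
  · obtain ⟨X, hX, rfl⟩ := hX
    refine ⟨fun j => X j * E (cm (Am (n j))) c, fun j => TJ_mul (hX j) (E_GJ (hJ.q j) c), ?_⟩
    rw [E_joint, ← map_mul]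
    rfl

end Pool.Agent.Run7.h811.HG
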